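import Mathlib
import Pool.Agent.W307.HT.Stm
import Pool.Agent.W925.HT.Heawood

/-!
# Circuits through `k - 1` prescribed edges: a counterexample for `k = 6`

The Heawood graph is cubic and cyclically 6-edge-connected. The five edges that leave a path with
three vertices induce a path system and form an edge cut with an odd number of edges, so no circuit
contains all of them. This disproves the statement with `k = 6`.
-/

set_option autoImplicit false

namespace Pool.Agent.Results.MP_c13936_co.HeawoodOddCut

open SimpleGraph

variable {V : Type}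

/-- the edge cut `δ(U)`: the edges with exactly one end in `U` -/
def cut (G : SimpleGraph V) (U : Set V) : Set (Sym2 V) :=
  {e | ∃ a b, a ∈ U ∧ b ∉ U ∧ G.Adj a b ∧ e = s(a, b)}

/-- a bond: a minimal nonempty edge cut -/
def IsBond (G : SimpleGraph V) (S : Set (Sym2 V)) : Prop :=
  S.Nonempty ∧ (∃ U, S = cut G U) ∧ ∀ T, T ⊂ S → T.Nonempty → ¬ ∃ U, T = cut G U

/-- cyclically `k`-edge-connected: a connected graph with two vertex-disjoint circuits such that
there is no bond `S` with `|S| < k` such that every component of `G ∖ S` contains a circuit -/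
def CyclicallyEdgeConnected (k : ℕ) (G : SimpleGraph V) : Prop :=
  G.Connected ∧
  (∃ (u v : V) (p : G.Walk u u) (q : G.Walk v v), p.IsCycle ∧ q.IsCycle ∧
    ∀ x, x ∈ p.support → x ∉ q.support) ∧
  ∀ S, IsBond G S → S.ncard < k → ¬ ∀ c : (G.deleteEdges S).ConnectedComponent,
    ∃ (v : V) (p : (G.deleteEdges S).Walk v v), p.IsCycle ∧ v ∈ c.supp

/-- a path system: there is no circuit and no vertex is incident with three edges -/
def PathSystem (S : Set (Sym2 V)) : Prop :=
  (SimpleGraph.fromEdgeSet S).IsAcyclic ∧ ∀ v, {e ∈ S | v ∈ e}.ncard ≤ 2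

/-- **Theorem.** There are a cubic, cyclically 6-edge-connected graph `G` (with 14 vertices) and a set
`S` of five edges of `G` that induces a path system such that no circuit of `G` contains all the
edges of `S`. -/
theorem result : ∃ (G : SimpleGraph (Fin 14)) (S : Finset (Sym2 (Fin 14))),
    (∀ v, (G.neighborSet v).ncard = 3) ∧ CyclicallyEdgeConnected 6 G ∧
    (S : Set (Sym2 (Fin 14))) ⊆ G.edgeSet ∧ S.card = 5 ∧
    PathSystem (S : Set (Sym2 (Fin 14))) ∧
    ∀ (v : Fin 14) (p : G.Walk v v), p.IsCycle → ¬ ∀ e ∈ S, e ∈ p.edges :=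
  Pool.Agent.W925.HT.hw

end Pool.Agent.Results.MP_c13936_co.HeawoodOddCut
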